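import Pool.Agent.H86.CMLib.W528.Odd.Stms

/-!
# Only zero is orthogonal to all conjugates of a square-zero element
-/

set_option autoImplicit false
set_option linter.unusedSectionVars false

namespace Pool.Agent.W261.OT.NoOrth

open Module Pool.Agent.W528.Odd

section

variable {K : Type} [Field K] {V : Type} [AddCommGroup V] [Module K V] {G : Type} [Group G]
variable {r : Representation K G V} {𝔥 : Submodule K (Module.End K V)}

theorem rr (g : G) : r g * r g⁻¹ = 1 := by rw [← map_mul, mul_inv_cancel, map_one]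

theorem rr' (g : G) : r g⁻¹ * r g = 1 := by rw [← map_mul, inv_mul_cancel, map_one]

theorem cc (g : G) (x y : Module.End K V) :
    (r g * x * r g⁻¹) * (r g * y * r g⁻¹) = r g * (x * y) * r g⁻¹ := by
  calc (r g * x * r g⁻¹) * (r g * y * r g⁻¹) = r g * x * (r g⁻¹ * r g) * y * r g⁻¹ := by
        simp only [mul_assoc]
    _ = _ := by rw [rr']; simp only [mul_assoc, one_mul]

theorem sq_le : W528.Odd.sq 𝔥 ≤ 𝔥 := Submodule.span_le.2 fun _ hn => hn.1

theorem conj_lin (g : G) (M : Submodule K (Module.End K V)) (S : Set (Module.End K V))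
    (h : ∀ x ∈ S, r g * x * r g⁻¹ ∈ M) (x : Module.End K V) (hx : x ∈ Submodule.span K S) :
    r g * x * r g⁻¹ ∈ M := by
  induction hx using Submodule.span_induction with
  | mem x hx => exact h x hx
  | zero => simp
  | add x y _ _ hx hy =>
    rw [mul_add, add_mul]
    exact M.add_mem hx hy
  | smul c x _ hx =>
    rw [mul_smul_comm, smul_mul_assoc]
    exact M.smul_mem c hx

theorem sq_conj (hs : Setup r 𝔥) (g : G) (x : Module.End K V) (hx : x ∈ W528.Odd.sq 𝔥) :
    r g * x * r g⁻¹ ∈ W528.Odd.sq 𝔥 := by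
  refine conj_lin g _ {n | n ∈ 𝔥 ∧ n * n = 0} (fun y hy => ?_) x hx
  refine Submodule.subset_span ⟨hs.conj g y hy.1, ?_⟩
  rw [cc, hy.2]
  simp

/-- invariant subspaces are stable under brackets with elements of `sq 𝔥` -/
theorem br_mem [CharZero K] (hs : Setup r 𝔥) (M : Submodule K (Module.End K V))
    (hM : ∀ g, ∀ x ∈ M, r g * x * r g⁻¹ ∈ M) (n : Module.End K V) (hn : n ∈ W528.Odd.sq 𝔥)
    (x : Module.End K V) (hx : x ∈ M) : n * x - x * n ∈ M := by
  unfold W528.Odd.sq at hn
  induction hn using Submodule.span_induction with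
  | mem n hn =>
    obtain ⟨g, hg⟩ := hs.unip n hn.1 hn.2
    obtain ⟨h, hh⟩ := hs.unip (-n) (𝔥.neg_mem hn.1) (by rw [neg_mul_neg]; exact hn.2)
    have hg' : r g⁻¹ = 1 - n := by
      calc r g⁻¹ = ((1 - n) * (1 + n)) * r g⁻¹ := by
            have : (1 - n) * (1 + n) = 1 := by
              calc (1 - n) * (1 + n) = 1 - n * n := by noncomm_ring
                _ = 1 := by rw [hn.2, sub_zero]
            rw [this, one_mul]
        _ = (1 - n) * (r g * r g⁻¹) := by rw [hg, mul_assoc]
        _ = 1 - n := by rw [rr, mul_one]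
    have hh' : r h⁻¹ = 1 + n := by
      calc r h⁻¹ = ((1 + n) * (1 + -n)) * r h⁻¹ := by
            have : (1 + n) * (1 + -n) = 1 := by
              calc (1 + n) * (1 + -n) = 1 - n * n := by noncomm_ring
                _ = 1 := by rw [hn.2, sub_zero]
            rw [this, one_mul]
        _ = (1 + n) * (r h * r h⁻¹) := by rw [hh, mul_assoc]
        _ = 1 + n := by rw [rr, mul_one]
    have h1 := hM g x hx
    have h2 := hM h x hx
    rw [hg, hg'] at h1
    rw [hh, hh'] at h2
    have h3 := M.sub_mem h1 h2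
    have h4 : (1 + n) * x * (1 - n) - (1 + -n) * x * (1 + n) =
        (2 : K) • (n * x - x * n) := by
      have : (2 : K) • (n * x - x * n) = (n * x - x * n) + (n * x - x * n) := two_smul K _
      rw [this]
      noncomm_ring
    rw [h4] at h3
    have h5 := M.smul_mem (2 : K)⁻¹ h3
    rwa [smul_smul, inv_mul_cancel₀ (two_ne_zero' K), one_smul] at h5
  | zero => simp
  | add a b _ _ ha hb =>
    have : (a + b) * x - x * (a + b) = (a * x - x * a) + (b * x - x * b) := by noncomm_ring
    rw [this]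
    exact M.add_mem ha hb
  | smul c a _ ha =>
    have : (c • a) * x - x * (c • a) = c • (a * x - x * a) := by
      rw [smul_mul_assoc, mul_smul_comm, smul_sub]
    rw [this]
    exact M.smul_mem c ha

theorem tr_conj (g : G) (x y : Module.End K V) :
    LinearMap.trace K V ((r g * x * r g⁻¹) * y) =
      LinearMap.trace K V (x * (r g⁻¹ * y * r g)) := by
  rw [mul_assoc (r g) x, mul_assoc (r g), LinearMap.trace_mul_comm]
  simp only [mul_assoc]

theorem sqz (a c : Module.End K V) (ha : a * a = 0) (hc : Commute a c) (k : ℕ) :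
    (a + c) ^ (k + 1) = c ^ (k + 1) + ((k + 1 : ℕ) : K) • (a * c ^ k) := by
  induction k with
  | zero => simp [add_comm]
  | succ k ih =>
    have h1 : c ^ (k + 1) * a = a * c ^ (k + 1) := (hc.pow_right (k + 1)).eq.symm
    have h2 : a * c ^ k * a = 0 := by
      rw [mul_assoc, ← (hc.pow_right k).eq, ← mul_assoc, ha, zero_mul]
    rw [pow_succ, ih, add_mul, mul_add, smul_mul_assoc, mul_add, h1, h2, zero_add, ← pow_succ,
      mul_assoc, ← pow_succ]
    push_cast
    module

end

theorem main : Pool.Agent.W528.Odd.NoOrth := by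
  intro K _ _ _ V _ _ _ G _ r 𝔥 hs cart N hN hNN hirr e he hee hene y hy hy0
  classical
  let 𝔰 : Submodule K (Module.End K V) := Submodule.span K (Set.range fun g => r g * e * r g⁻¹)
  have hesq : e ∈ W528.Odd.sq 𝔥 := Submodule.subset_span ⟨he, hee⟩
  have hNsq : N ∈ W528.Odd.sq 𝔥 := Submodule.subset_span ⟨hN, hNN⟩
  have h𝔰sq : 𝔰 ≤ W528.Odd.sq 𝔥 := by
    refine Submodule.span_le.2 ?_
    rintro _ ⟨g, rfl⟩
    exact sq_conj hs g e hesq
  have he𝔰 : e ∈ 𝔰 := Submodule.subset_span ⟨1, by simp⟩
  have h𝔰conj : ∀ g, ∀ x ∈ 𝔰, r g * x * r g⁻¹ ∈ 𝔰 := by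
    intro g x hx
    refine conj_lin g _ _ ?_ x hx
    rintro _ ⟨h, rfl⟩
    refine Submodule.subset_span ⟨g * h, ?_⟩
    simp only [map_mul, mul_inv_rev, mul_assoc]
  let 𝔰' : Submodule K (Module.End K V) :=
    { carrier := {y | y ∈ W528.Odd.sq 𝔥 ∧ ∀ z ∈ 𝔰, LinearMap.trace K V (y * z) = 0}
      zero_mem' := ⟨(W528.Odd.sq 𝔥).zero_mem, fun z _ => by simp⟩
      add_mem' := by
        rintro a b ⟨ha, ha'⟩ ⟨hb, hb'⟩
        refine ⟨(W528.Odd.sq 𝔥).add_mem ha hb, fun z hz => ?_⟩
        rw [add_mul, map_add, ha' z hz, hb' z hz, add_zero]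
      smul_mem' := by
        rintro c a ⟨ha, ha'⟩
        refine ⟨(W528.Odd.sq 𝔥).smul_mem c ha, fun z hz => ?_⟩
        rw [smul_mul_assoc, map_smul, ha' z hz, smul_zero] }
  have h𝔰'conj : ∀ g, ∀ x ∈ 𝔰', r g * x * r g⁻¹ ∈ 𝔰' := by
    rintro g x ⟨hx, hx'⟩
    refine ⟨sq_conj hs g x hx, fun z hz => ?_⟩
    rw [tr_conj]
    refine hx' _ ?_
    have := h𝔰conj g⁻¹ z hz
    rwa [inv_inv] at this
  have h𝔞 : 𝔰 ⊓ 𝔰' = ⊥ := by
    refine cart _ ?_ ?_ ?_ ?_
    · rintro x ⟨h1, _⟩
      exact sq_le (h𝔰sq h1)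
    · rintro x ⟨hx, _⟩ z ⟨hz, hz'⟩
      exact ⟨br_mem hs 𝔰 h𝔰conj x (h𝔰sq hx) z hz, br_mem hs 𝔰' h𝔰'conj x (h𝔰sq hx) z hz'⟩
    · rintro g x ⟨hx, hx'⟩
      exact ⟨h𝔰conj g x hx, h𝔰'conj g x hx'⟩
    · rintro x ⟨_, hx'⟩ z ⟨hz, _⟩
      exact hx'.2 z hz
  have comm : ∀ s ∈ 𝔰, ∀ s' ∈ 𝔰', s * s' = s' * s := by
    intro s h1 s' h2
    have h3 : s * s' - s' * s ∈ 𝔰' := br_mem hs 𝔰' h𝔰'conj s (h𝔰sq h1) s' h2
    have h4 : s' * s - s * s' ∈ 𝔰 := br_mem hs 𝔰 h𝔰conj s' h2.1 s h1
    have h5 : s * s' - s' * s ∈ 𝔰 := by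
      rw [← neg_sub]
      exact 𝔰.neg_mem h4
    have h6 : s * s' - s' * s ∈ 𝔰 ⊓ 𝔰' := ⟨h5, h3⟩
    rw [h𝔞, Submodule.mem_bot] at h6
    exact sub_eq_zero.1 h6
  -- decomposition
  have dec : ∀ z ∈ W528.Odd.sq 𝔥, ∃ z1 ∈ 𝔰, ∃ z2 ∈ 𝔰', z = z1 + z2 := by
    intro z hz
    let B : 𝔰 →ₗ[K] Module.Dual K 𝔰 :=
      LinearMap.mk₂ K (fun a b => LinearMap.trace K V ((a : Module.End K V) * b))
        (by intro a b c; simp [add_mul])
        (by intro c a b; simp)
        (by intro a b c; simp [mul_add])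
        (by intro c a b; simp)
    have hB : Function.Injective B := by
      rw [← LinearMap.ker_eq_bot, LinearMap.ker_eq_bot']
      intro a ha
      have h1 : (a : Module.End K V) ∈ 𝔰 ⊓ 𝔰' := by
        refine ⟨a.2, h𝔰sq a.2, fun z hz => ?_⟩
        exact congrArg (fun φ : Module.Dual K 𝔰 => φ ⟨z, hz⟩) ha
      rw [h𝔞, Submodule.mem_bot] at h1
      exact Subtype.ext h1
    have hB' : Function.Surjective B :=
      (LinearMap.injective_iff_surjective_of_finrank_eq_finrank
        (Subspace.dual_finrank_eq (K := K) (V := 𝔰)).symm).1 hB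
    obtain ⟨a, ha⟩ := hB' ((LinearMap.trace K V) ∘ₗ (LinearMap.mulLeft K z) ∘ₗ 𝔰.subtype)
    refine ⟨a, a.2, z - a, ⟨(W528.Odd.sq 𝔥).sub_mem hz (h𝔰sq a.2), fun x hx => ?_⟩, by abel⟩
    have h1 := congrArg (fun φ : Module.Dual K 𝔰 => φ ⟨x, hx⟩) ha
    have h2 : LinearMap.trace K V ((a : Module.End K V) * x) = LinearMap.trace K V (z * x) := h1
    rw [sub_mul, map_sub, h2, sub_self]
  -- irreducibility
  have stab : ∀ W : Submodule K V, (∀ s ∈ 𝔰, ∀ u ∈ W, s u ∈ W) → (∀ s ∈ 𝔰', ∀ u ∈ W, s u ∈ W) →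
      W = ⊥ ∨ W = ⊤ := by
    intro W h1 h2
    refine hirr W fun g u hu => ?_
    obtain ⟨z1, hz1, z2, hz2, hz⟩ := dec _ (sq_conj hs g N hNsq)
    rw [hz]
    exact W.add_mem (h1 z1 hz1 u hu) (h2 z2 hz2 u hu)
  have hnt : Nontrivial V := by
    by_contra h
    rw [not_nontrivial_iff_subsingleton] at h
    exact hene (LinearMap.ext fun v => Subsingleton.elim _ _)
  -- products
  have prod : ∀ x y : Module.End K V, (∀ s' ∈ 𝔰', x * s' = s' * x) →
      (∀ b : Module.End K V, (∀ s' ∈ 𝔰', b * s' = s' * b) → b * y = y * b) → x * y = 0 →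
      x = 0 ∨ y = 0 := by
    intro x y hx hy hxy
    let W : Submodule K V :=
      { carrier := {v | ∀ b : Module.End K V, (∀ s' ∈ 𝔰', b * s' = s' * b) → x (b v) = 0}
        zero_mem' := by intro b _; simp
        add_mem' := by
          intro a c ha hc b hb
          rw [map_add, map_add, ha b hb, hc b hb, add_zero]
        smul_mem' := by
          intro c a ha b hb
          rw [map_smul, map_smul, ha b hb, smul_zero] }
    rcases stab W (by
      intro s h1 u hu b hb
      have := hu (b * s) (by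
        intro s' h2
        rw [mul_assoc, comm s h1 s' h2, ← mul_assoc, hb s' h2, mul_assoc])
      exact this) (by
      intro s' h1 u hu b hb
      have e1 : x (b (s' u)) = (x * b * s') u := rfl
      have e2 : x * b * s' = s' * (x * b) := by
        rw [mul_assoc, hb s' h1, ← mul_assoc, hx s' h1, mul_assoc]
      rw [e1, e2]
      change s' (x (b u)) = 0
      rw [hu b hb, map_zero]) with h | h
    · right
      refine LinearMap.ext fun v => ?_
      have h1 : y v ∈ W := by
        intro b hb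
        have e1 : x (b (y v)) = (x * (b * y)) v := rfl
        rw [e1, hy b hb, ← mul_assoc, hxy]
        simp
      rw [h, Submodule.mem_bot] at h1
      exact h1
    · left
      refine LinearMap.ext fun v => ?_
      have h1 : v ∈ W := by
        rw [h]
        trivial
      have := h1 1 (by intro s' _; rw [one_mul, mul_one])
      simpa using this
  obtain ⟨N1, hN1, N2, hN2, hN12⟩ := dec N hNsq
  have hc12 : N1 * N2 = N2 * N1 := comm N1 hN1 N2 hN2
  -- key: one of them is zero
  have key : N1 = 0 ∨ N2 = 0 := by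
    obtain ⟨t, ht⟩ := Module.End.exists_eigenvalue N1
    have hcN1 : Commute N N1 := by
      rw [hN12]
      exact ((Commute.refl N1).add_left hc12.symm)
    have hcN2 : Commute N N2 := by
      rw [hN12]
      exact (Commute.add_left hc12 (Commute.refl N2))
    have hE : N1.maxGenEigenspace t = N2.maxGenEigenspace (-t) := by
      have a1 : N2 - (-t) • (1 : Module.End K V) = N + -(N1 - t • (1 : Module.End K V)) := by
        rw [hN12]
        module
      have a2 : N1 - t • (1 : Module.End K V) = N + -(N2 - (-t) • (1 : Module.End K V)) := by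
        rw [hN12]
        module
      have c1 : Commute N (-(N1 - t • (1 : Module.End K V))) :=
        ((hcN1.sub_right ((Commute.one_right N).smul_right t))).neg_right
      have c2 : Commute N (-(N2 - (-t) • (1 : Module.End K V))) :=
        ((hcN2.sub_right ((Commute.one_right N).smul_right (-t)))).neg_right
      have k : ∀ (A B : Module.End K V), B = N + -A → Commute N (-A) → ∀ (v : V) (k : ℕ),
          (A ^ k) v = 0 → (B ^ (k + 1)) v = 0 := by
        intro A B h1 h2 v k h3
        have hneg : ((-A) ^ k) v = 0 := by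
          rw [neg_pow]
          change ((-1 : Module.End K V) ^ k) ((A ^ k) v) = 0
          rw [h3, map_zero]
        rw [h1, sqz N (-A) hNN h2 k]
        rw [LinearMap.add_apply, LinearMap.smul_apply, pow_succ']
        change (-A) (((-A) ^ k) v) + _ • N (((-A) ^ k) v) = 0
        rw [hneg, map_zero, map_zero, smul_zero, add_zero]
      ext v
      rw [Module.End.mem_maxGenEigenspace, Module.End.mem_maxGenEigenspace]
      constructor
      · rintro ⟨q, hq⟩
        exact ⟨q + 1, k _ _ a1 c1 v q hq⟩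
      · rintro ⟨q, hq⟩
        exact ⟨q + 1, k _ _ a2 c2 v q hq⟩
    have hEtop : N1.maxGenEigenspace t = ⊤ := by
      rcases stab (N1.maxGenEigenspace t) (by
        intro s hs1 u hu
        rw [hE] at hu ⊢
        exact Module.End.mapsTo_maxGenEigenspace_of_comm (comm s hs1 N2 hN2).symm (-t) hu) (by
        intro s hs1 u hu
        exact Module.End.mapsTo_maxGenEigenspace_of_comm (comm N1 hN1 s hs1) t hu) with h | h
      · exfalso
        obtain ⟨v, hv⟩ := ht.exists_hasEigenvector
        have h1 : v ∈ N1.maxGenEigenspace t := by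
          rw [Module.End.mem_maxGenEigenspace]
          refine ⟨1, ?_⟩
          rw [pow_one, LinearMap.sub_apply, hv.apply_eq_smul]
          simp
        rw [h, Submodule.mem_bot] at h1
        exact hv.2 h1
      · exact h
    have nil : ∀ (A : Module.End K V) (q : K), A.maxGenEigenspace q = ⊤ →
        IsNilpotent (A - q • (1 : Module.End K V)) := by
      intro A q h
      rw [Module.End.isNilpotent_iff_of_finite]
      intro v
      have h1 : v ∈ A.maxGenEigenspace q := by
        rw [h]
        trivial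
      exact (Module.End.mem_maxGenEigenspace _ _ _).1 h1
    have n1 := nil N1 t hEtop
    have ht0 : t = 0 := by
      have h1 := LinearMap.isNilpotent_trace_of_isNilpotent n1
      rw [isNilpotent_iff_eq_zero, map_sub, map_smul, hs.tr N1 (sq_le (h𝔰sq hN1)),
        LinearMap.trace_one, zero_sub, neg_eq_zero, smul_eq_mul] at h1
      rcases mul_eq_zero.1 h1 with h | h
      · exact h
      · exfalso
        have h2 : (finrank K V : K) ≠ 0 := Nat.cast_ne_zero.2 finrank_pos.ne'
        exact h2 h
    have n2 := nil N2 (-t) (hE ▸ hEtop)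
    rw [ht0, zero_smul, sub_zero] at n1
    rw [ht0, neg_zero, zero_smul, sub_zero] at n2
    by_contra hcon
    push Not at hcon
    obtain ⟨hne1, hne2⟩ := hcon
    -- degrees of nilpotency
    have deg : ∀ A : Module.End K V, A ≠ 0 → IsNilpotent A →
        ∃ a : ℕ, A ^ (a + 2) = 0 ∧ A ^ (a + 1) ≠ 0 := by
      intro A hA hA'
      have h1 := Nat.find_spec hA'
      have h2 : Nat.find hA' ≠ 0 := by
        intro h0
        rw [h0, pow_zero] at h1
        exact one_ne_zero h1
      have h3 : Nat.find hA' ≠ 1 := by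
        intro h0
        rw [h0, pow_one] at h1
        exact hA h1
      obtain ⟨a, ha⟩ : ∃ a, Nat.find hA' = a + 2 := ⟨Nat.find hA' - 2, by omega⟩
      refine ⟨a, ha ▸ h1, ?_⟩
      exact Nat.find_min hA' (by omega)
    obtain ⟨a, ha, ha'⟩ := deg N1 hne1 n1
    obtain ⟨b, hb, hb'⟩ := deg N2 hne2 n2
    have hzero : N1 ^ (a + 1) * N2 ^ (b + 1) = 0 := by
      have hNN' : N1 * N1 + (N1 * N2 + N1 * N2) + N2 * N2 = 0 := by
        have := hNN
        rw [hN12, add_mul, mul_add, mul_add, ← hc12] at this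
        rw [← this]
        abel
      have hcp : Commute N1 N2 := hc12
      have e1 : N1 ^ a * N2 ^ b * (N1 * N1) = 0 := by
        rw [mul_assoc, (hcp.mul_left hcp).symm.pow_left b |>.eq, ← mul_assoc, ← pow_two,
          ← pow_add, ha, zero_mul]
      have e2 : N1 ^ a * N2 ^ b * (N1 * N2) = N1 ^ (a + 1) * N2 ^ (b + 1) := by
        rw [pow_succ, pow_succ, mul_assoc, mul_assoc, ← mul_assoc (N2 ^ b) N1 N2,
          (hcp.symm.pow_left b).eq, mul_assoc N1]
      have e3 : N1 ^ a * N2 ^ b * (N2 * N2) = 0 := by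
        rw [mul_assoc, ← pow_two, ← pow_add, hb, mul_zero]
      have e4 := congrArg (fun z => N1 ^ a * N2 ^ b * z) hNN'
      simp only [mul_add, e1, e2, e3, mul_zero, zero_add, add_zero] at e4
      have e5 : (2 : K) • (N1 ^ (a + 1) * N2 ^ (b + 1)) = 0 := by
        rw [two_smul]
        exact e4
      exact (smul_eq_zero.1 e5).resolve_left (two_ne_zero' K)
    rcases prod (N1 ^ (a + 1)) (N2 ^ (b + 1)) (by
      intro s' hs'
      exact (Commute.pow_left (comm N1 hN1 s' hs') (a + 1) : Commute (N1 ^ (a + 1)) s')) (by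
      intro c hc
      exact (Commute.pow_right (hc N2 hN2) (b + 1) : Commute c (N2 ^ (b + 1)))) hzero with h | h
    · exact ha' h
    · exact hb' h
  rcases key with h0 | h0
  · -- `N` is in `𝔰'`
    exfalso
    have hN' : N ∈ 𝔰' := by
      rw [hN12, h0, zero_add]
      exact hN2
    rcases hirr (LinearMap.ker e) (by
      intro g u hu
      rw [LinearMap.mem_ker] at hu ⊢
      have h1 := comm e he𝔰 _ (h𝔰'conj g N hN')
      have h2 := congrArg (fun f : Module.End K V => f u) h1
      change e ((r g * N * r g⁻¹) u) = (r g * N * r g⁻¹) (e u) at h2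
      rw [h2, hu, map_zero]) with h | h
    · apply hene
      refine LinearMap.ext fun v => ?_
      have h1 : e v ∈ LinearMap.ker e := by
        rw [LinearMap.mem_ker]
        exact congrArg (fun f : Module.End K V => f v) hee
      rw [h, Submodule.mem_bot] at h1
      exact h1
    · exact hene (LinearMap.ker_eq_top.1 h)
  · -- `N` is in `𝔰`
    have hN' : N ∈ 𝔰 := by
      rw [hN12, h0, add_zero]
      exact hN1
    have hy' : y ∈ 𝔰' := by
      refine ⟨hy, fun z hz => ?_⟩
      induction hz using Submodule.span_induction with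
      | mem z hz =>
        obtain ⟨g, rfl⟩ := hz
        exact hy0 g
      | zero => simp
      | add a b _ _ ha hb => rw [mul_add, map_add, ha, hb, add_zero]
      | smul c a _ ha => rw [mul_smul_comm, map_smul, ha, smul_zero]
    obtain ⟨t, ht⟩ := Module.End.exists_eigenvalue y
    have hE : y.eigenspace t = ⊤ := by
      rcases hirr (y.eigenspace t) (by
        intro g u hu
        rw [Module.End.mem_eigenspace_iff] at hu ⊢
        have h1 := comm _ (h𝔰conj g N hN') y hy'
        have h2 := congrArg (fun f : Module.End K V => f u) h1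
        change (r g * N * r g⁻¹) (y u) = y ((r g * N * r g⁻¹) u) at h2
        rw [← h2, hu, map_smul]) with h | h
      · exact absurd h ht
      · exact h
    have hyt : y = t • (1 : Module.End K V) := by
      refine LinearMap.ext fun v => ?_
      have h1 : v ∈ y.eigenspace t := by
        rw [hE]
        trivial
      rw [Module.End.mem_eigenspace_iff] at h1
      rw [h1]
      rfl
    have htr := hs.tr y (sq_le hy)
    rw [hyt, map_smul, LinearMap.trace_one, smul_eq_mul] at htr
    rcases mul_eq_zero.1 htr with h | h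
    · rw [hyt, h, zero_smul]
    · exfalso
      have h2 : (finrank K V : K) ≠ 0 := Nat.cast_ne_zero.2 finrank_pos.ne'
      exact h2 h

end Pool.Agent.W261.OT.NoOrth
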